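import Mathlib

set_option autoImplicit false

namespace Pool.Agent.H6.Chi

open Finset

section gb
variable {R : Type*} [CommRing R]

/-- Gaussian binomial coefficients at a ring element `w`. -/
def gb (w : R) : ℕ → ℕ → R
  | _, 0 => 1
  | 0, _ + 1 => 0
  | j + 1, k + 1 => gb w j k + w ^ (k + 1) * gb w j (k + 1)

/-- the product `(x - 1)(x - w) ... (x - w^(k-1))`. -/
def ff (w x : R) (k : ℕ) : R := ∏ l ∈ range k, (x - w ^ l)

/-- the product `(w - 1)(w^2 - 1) ... (w^k - 1)`. -/
def qf (w : R) (k : ℕ) : R := ∏ l ∈ range k, (w ^ (l + 1) - 1)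

lemma gb_zero (w : R) (j : ℕ) : gb w j 0 = 1 := by cases j <;> rfl

lemma gb_eq_zero (w : R) : ∀ j k : ℕ, j < k → gb w j k = 0 := by
  intro j
  induction j with
  | zero => intro k hk; cases k with
    | zero => omega
    | succ k => rfl
  | succ j ih => intro k hk; cases k with
    | zero => omega
    | succ k =>
      rw [gb, ih k (by omega), ih (k + 1) (by omega)]; ring

lemma cauchy (w x : R) (j : ℕ) :
    x ^ j = ∑ k ∈ range (j + 1), gb w j k * ff w x k := by
  induction j with
  | zero => simp [gb, ff]
  | succ j ih =>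
    have hx : ∀ k, x * ff w x k = ff w x (k + 1) + w ^ k * ff w x k := by
      intro k
      simp only [ff, prod_range_succ]; ring
    have h1 : x ^ (j + 1) = ∑ k ∈ range (j + 1), gb w j k * ff w x (k + 1)
        + ∑ k ∈ range (j + 1), gb w j k * (w ^ k * ff w x k) := by
      rw [pow_succ, ih, sum_mul, ← sum_add_distrib]
      apply sum_congr rfl
      intro k _
      have := hx k
      calc gb w j k * ff w x k * x = gb w j k * (x * ff w x k) := by ring
        _ = _ := by rw [this]; ring
    rw [h1, sum_range_succ' (fun k => gb w (j + 1) k * ff w x k) (j + 1)]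
    have h2 : ∑ k ∈ range (j + 1), gb w (j + 1) (k + 1) * ff w x (k + 1)
        = ∑ k ∈ range (j + 1), gb w j k * ff w x (k + 1)
          + ∑ k ∈ range (j + 1), w ^ (k + 1) * gb w j (k + 1) * ff w x (k + 1) := by
      rw [← sum_add_distrib]
      apply sum_congr rfl
      intro k _
      rw [gb]; ring
    rw [h2]
    have h3 : ∑ k ∈ range (j + 1), gb w j k * (w ^ k * ff w x k)
        = ∑ k ∈ range (j + 1), w ^ (k + 1) * gb w j (k + 1) * ff w x (k + 1)
          + gb w (j + 1) 0 * ff w x 0 := by
      rw [sum_range_succ' (fun k => gb w j k * (w ^ k * ff w x k)) j,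
        sum_range_succ (fun k => w ^ (k + 1) * gb w j (k + 1) * ff w x (k + 1)) j,
        gb_eq_zero w j (j + 1) (by omega)]
      have : ∑ k ∈ range j, gb w j (k + 1) * (w ^ (k + 1) * ff w x (k + 1))
          = ∑ k ∈ range j, w ^ (k + 1) * gb w j (k + 1) * ff w x (k + 1) :=
        sum_congr rfl (fun k _ => by ring)
      rw [this]
      simp [gb_zero]
    rw [h3]; ring

lemma ff_gb (w : R) : ∀ i k : ℕ,
    ff w (w ^ i) k = w ^ (k * (k - 1) / 2) * gb w i k * qf w k := by
  intro i
  induction i with
  | zero =>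
    intro k
    cases k with
    | zero => simp [ff, gb, qf]
    | succ k =>
      have : ff w (w ^ 0) (k + 1) = 0 := by
        unfold ff
        apply prod_eq_zero (mem_range.2 (Nat.succ_pos k))
        simp
      rw [this, gb]; ring
  | succ i ih =>
    intro k
    cases k with
    | zero => simp [ff, gb_zero, qf]
    | succ k =>
      have h1 : ff w (w ^ (i + 1)) (k + 1) = (w ^ (i + 1) - 1) * (w ^ k * ff w (w ^ i) k) := by
        unfold ff
        rw [prod_range_succ' (fun l => w ^ (i + 1) - w ^ l) k]
        have : ∏ l ∈ range k, (w ^ (i + 1) - w ^ (l + 1)) = w ^ k * ∏ l ∈ range k, (w ^ i - w ^ l) := by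
          have h : ∏ l ∈ range k, (w ^ (i + 1) - w ^ (l + 1))
              = ∏ l ∈ range k, (w * (w ^ i - w ^ l)) := prod_congr rfl (fun l _ => by ring)
          rw [h, prod_mul_distrib]
          simp
        rw [this]
        ring
      have h2 : ff w (w ^ i) (k + 1) = ff w (w ^ i) k * (w ^ i - w ^ k) := by
        unfold ff; rw [prod_range_succ]
      have h3 : qf w (k + 1) = qf w k * (w ^ (k + 1) - 1) := by
        unfold qf; rw [prod_range_succ]
      have e1 : (k + 1) * (k + 1 - 1) / 2 = k + k * (k - 1) / 2 := by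
        cases k with
        | zero => rfl
        | succ k =>
          have : (k + 1 + 1) * (k + 1 + 1 - 1) = (k + 1) * (k + 1 - 1) + 2 * (k + 1) := by
            simp only [Nat.add_sub_cancel]; ring
          rw [this, Nat.add_mul_div_left _ _ (by norm_num)]; ring
      have hk := ih k
      have hk1 := ih (k + 1)
      rw [h2, h3, e1] at hk1
      rw [h1, h3, e1, gb]
      have goal1 : w ^ (k + k * (k - 1) / 2) * (gb w i k + w ^ (k + 1) * gb w i (k + 1)) *
            (qf w k * (w ^ (k + 1) - 1))
          = w ^ k * (w ^ (k + 1) - 1) * (w ^ (k * (k - 1) / 2) * gb w i k * qf w k)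
            + w ^ (k + 1) * (w ^ (k + k * (k - 1) / 2) * gb w i (k + 1) * (qf w k * (w ^ (k + 1) - 1))) := by
        rw [pow_add w k (k * (k - 1) / 2)]; ring
      rw [goal1, ← hk, ← hk1]
      ring

end gb

end Pool.Agent.H6.Chi
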