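import Mathlib
import Pool.Agent.H6.Chi.Gauss

set_option autoImplicit false

namespace Pool.Agent.H6.Chi

open Finset Polynomial

/-- the polynomial ring over the field with two elements. -/
abbrev PP := Polynomial (ZMod 2)

/-- the exponents `0, 1, 3, 4, 8, 9, 11`. -/
def ev : ℕ → ℕ
  | 0 => 0
  | 1 => 1
  | 2 => 3
  | 3 => 4
  | 4 => 8
  | 5 => 9
  | _ => 11

/-- squared difference. -/
def sq (i j : ℕ) : ℕ := ((i : ℤ) - (j : ℤ)).natAbs ^ 2

lemma coeff_one_add_pow (b s r : ℕ) (hr : r < 2 ^ b) :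
    (((1 : PP) + X) ^ (2 ^ b * s + r)).coeff (2 ^ b - 1) = if r = 2 ^ b - 1 then 1 else 0 := by
  have : Fact (Nat.Prime 2) := ⟨Nat.prime_two⟩
  have h1 : ((1 : PP) + X) ^ (2 ^ b * s) = (1 + X ^ (2 ^ b)) ^ s := by
    rw [pow_mul, add_pow_char_pow, one_pow]
  obtain ⟨g, hg⟩ : (X : PP) ^ (2 ^ b) ∣ (1 + X ^ (2 ^ b)) ^ s - 1 := by
    have := sub_dvd_pow_sub_pow ((1 : PP) + X ^ (2 ^ b)) 1 s
    simpa using this
  have h2 : ((1 : PP) + X) ^ (2 ^ b * s + r) = (1 + X) ^ r + X ^ (2 ^ b) * (g * (1 + X) ^ r) := by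
    rw [pow_add, h1]
    have : ((1 : PP) + X ^ (2 ^ b)) ^ s = 1 + X ^ (2 ^ b) * g := by rw [← hg]; ring
    rw [this]; ring
  rw [h2, coeff_add, coeff_X_pow_mul']
  have hb : 0 < 2 ^ b := by positivity
  rw [if_neg (by omega), add_zero, coeff_one_add_X_pow]
  split_ifs with h
  · rw [h]; simp
  · rw [Nat.choose_eq_zero_of_lt (by omega)]; simp

lemma X_dvd_pow_sub_one (v o : ℕ) :
    (X : PP) ^ (2 * 2 ^ v) ∣ (((1 : PP) + X) ^ 2) ^ (2 ^ v * o) - 1 := by
  have : Fact (Nat.Prime 2) := ⟨Nat.prime_two⟩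
  have h1 : (((1 : PP) + X) ^ 2) ^ (2 ^ v * o) = (1 + X ^ (2 ^ (v + 1))) ^ o := by
    rw [← pow_mul, show 2 * (2 ^ v * o) = 2 ^ (v + 1) * o by ring, pow_mul, add_pow_char_pow,
      one_pow]
  rw [h1, show 2 * 2 ^ v = 2 ^ (v + 1) by ring]
  have := sub_dvd_pow_sub_pow ((1 : PP) + X ^ (2 ^ (v + 1))) 1 o
  simpa using this

lemma X_dvd_qf (k : ℕ) (hk : k < 7) : (X : PP) ^ (2 * ev k) ∣ qf (((1 : PP) + X) ^ 2) k := by
  have h1 : (X : PP) ^ 2 ∣ (((1 : PP) + X) ^ 2) ^ 1 - 1 := by simpa using X_dvd_pow_sub_one 0 1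
  have h2 : (X : PP) ^ 4 ∣ (((1 : PP) + X) ^ 2) ^ 2 - 1 := by simpa using X_dvd_pow_sub_one 1 1
  have h3 : (X : PP) ^ 2 ∣ (((1 : PP) + X) ^ 2) ^ 3 - 1 := by simpa using X_dvd_pow_sub_one 0 3
  have h4 : (X : PP) ^ 8 ∣ (((1 : PP) + X) ^ 2) ^ 4 - 1 := by simpa using X_dvd_pow_sub_one 2 1
  have h5 : (X : PP) ^ 2 ∣ (((1 : PP) + X) ^ 2) ^ 5 - 1 := by simpa using X_dvd_pow_sub_one 0 5
  have h6 : (X : PP) ^ 4 ∣ (((1 : PP) + X) ^ 2) ^ 6 - 1 := by simpa using X_dvd_pow_sub_one 1 3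
  have g1 : (X : PP) ^ 2 ∣ qf (((1 : PP) + X) ^ 2) 1 := by
    simpa [qf] using h1
  have step : ∀ (k a c : ℕ), (X : PP) ^ a ∣ qf (((1 : PP) + X) ^ 2) k →
      (X : PP) ^ c ∣ (((1 : PP) + X) ^ 2) ^ (k + 1) - 1 →
      (X : PP) ^ (a + c) ∣ qf (((1 : PP) + X) ^ 2) (k + 1) := by
    intro k a c ha hc
    unfold qf at *
    rw [prod_range_succ, pow_add]
    exact mul_dvd_mul ha hc
  have g2 := step 1 2 4 g1 h2
  have g3 := step 2 6 2 g2 h3
  have g4 := step 3 8 8 g3 h4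
  have g5 := step 4 16 2 g4 h5
  have g6 := step 5 18 4 g5 h6
  interval_cases k
  · simp [ev]
  · exact g1
  · exact g2
  · exact g3
  · exact g4
  · exact g5
  · exact g6

/-- local factorisation of the kernel. -/
lemma local_kernel : ∃ U W : ℕ → ℕ → PP, ∀ i j : ℕ, i < 7 → j < 7 →
    ((1 : PP) + X) ^ (sq i j + 36) = ∑ k ∈ range 7, X ^ (2 * ev k) * (U i k * W j k) := by
  set w : PP := ((1 : PP) + X) ^ 2 with hw
  have hq : ∀ k, k < 7 → ∃ c : PP, qf w k = X ^ (2 * ev k) * c := fun k hk => X_dvd_qf k hk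
  choose! c hc using hq
  refine ⟨fun i k => (1 + X) ^ ((6 - i) ^ 2) * (w ^ (k * (k - 1) / 2) * gb w i k * c k),
    fun j k => (1 + X) ^ (j ^ 2) * gb w (6 - j) k, ?_⟩
  intro i j hi hj
  have hexp : sq i j + 36 = (6 - i) ^ 2 + j ^ 2 + 2 * (i * (6 - j)) := by
    unfold sq
    interval_cases i <;> interval_cases j <;> rfl
  have h1 : ((1 : PP) + X) ^ (sq i j + 36)
      = (1 + X) ^ ((6 - i) ^ 2) * (1 + X) ^ (j ^ 2) * (w ^ i) ^ (6 - j) := by
    rw [hexp, pow_add, pow_add, hw, ← pow_mul, ← pow_mul]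
  rw [h1, cauchy w (w ^ i) (6 - j)]
  have h2 : ∑ k ∈ range (6 - j + 1), gb w (6 - j) k * ff w (w ^ i) k
      = ∑ k ∈ range 7, gb w (6 - j) k * ff w (w ^ i) k := by
    apply sum_subset
    · intro k hk; rw [mem_range] at *; omega
    · intro k _ hk
      rw [mem_range] at hk
      rw [gb_eq_zero w _ _ (by omega), zero_mul]
  rw [h2, mul_sum]
  apply sum_congr rfl
  intro k hk
  rw [mem_range] at hk
  rw [ff_gb, hc k hk]
  ring

/-- squared distance of two words. -/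
def DD {n : ℕ} (x y : Fin n → Fin 7) : ℕ := ∑ i, sq (x i) (y i)

/-- weight of an exponent word. -/
def EE {n : ℕ} (κ : Fin n → Fin 7) : ℕ := ∑ i, ev (κ i)

lemma global_kernel (n : ℕ) : ∃ U W : (Fin n → Fin 7) → (Fin n → Fin 7) → PP,
    ∀ x y : Fin n → Fin 7, ((1 : PP) + X) ^ (DD x y + 36 * n)
      = ∑ κ : Fin n → Fin 7, X ^ (2 * EE κ) * (U x κ * W y κ) := by
  obtain ⟨U, W, h⟩ := local_kernel
  refine ⟨fun x κ => ∏ i, U (x i) (κ i), fun y κ => ∏ i, W (y i) (κ i), ?_⟩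
  intro x y
  have h1 : ((1 : PP) + X) ^ (DD x y + 36 * n) = ∏ i, ((1 : PP) + X) ^ (sq (x i) (y i) + 36) := by
    rw [prod_pow_eq_pow_sum, sum_add_distrib]
    simp [DD, mul_comm]
  rw [h1]
  have h2 : ∀ i, ((1 : PP) + X) ^ (sq (x i) (y i) + 36)
      = ∑ k : Fin 7, X ^ (2 * ev k) * (U (x i) k * W (y i) k) := by
    intro i
    rw [h _ _ (x i).2 (y i).2, Finset.sum_range]
  simp_rw [h2]
  rw [Finset.prod_univ_sum]
  rw [Fintype.piFinset_univ]
  apply sum_congr rfl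
  intro κ _
  rw [prod_mul_distrib, prod_mul_distrib, prod_pow_eq_pow_sum, EE, mul_sum]

lemma coeff_split (P Q : PP) (d T : ℕ) (hd : d < T) :
    (X ^ d * (P * Q)).coeff (T - 1)
      = ∑ r : Fin T, P.coeff r * (if d + r ≤ T - 1 then Q.coeff (T - 1 - d - r) else 0) := by
  rw [coeff_X_pow_mul', if_pos (by omega), coeff_mul,
    Finset.Nat.sum_antidiagonal_eq_sum_range_succ (fun i j => P.coeff i * Q.coeff j)]
  rw [Fin.sum_univ_eq_sum_range
    (fun r : ℕ => P.coeff r * (if d + r ≤ T - 1 then Q.coeff (T - 1 - d - r) else 0)) T]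
  have h1 : ∀ r ∈ range T, P.coeff r * (if d + r ≤ T - 1 then Q.coeff (T - 1 - d - r) else 0)
      = if r ∈ range (T - 1 - d).succ then P.coeff r * Q.coeff (T - 1 - d - r) else 0 := by
    intro r hr
    rw [mem_range] at hr
    by_cases h : d + r ≤ T - 1
    · rw [if_pos h, if_pos (by rw [mem_range]; omega)]
    · rw [if_neg h, if_neg (by rw [mem_range]; omega), mul_zero]
  rw [sum_congr rfl h1, ← Finset.sum_filter]
  apply sum_congr
  · ext r
    simp only [mem_filter, mem_range]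
    omega
  · intro r _; rfl

/-- Sets of words no two of which have squared distance divisible by `2^(b+1)` are small. -/
theorem indep_bound (n b : ℕ) (A : Finset (Fin n → Fin 7))
    (hA : ∀ x ∈ A, ∀ y ∈ A, x ≠ y → ¬ 2 ^ (b + 1) ∣ DD x y) :
    A.card ≤ 2 ^ (b + 1) *
      ((univ : Finset (Fin n → Fin 7)).filter (fun κ => EE κ < 2 ^ b)).card := by
  classical
  obtain ⟨U, W, h⟩ := global_kernel n
  set T : ℕ := 2 ^ (b + 1) with hT
  have hTpos : 0 < T := by positivity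
  -- shift exponent
  obtain ⟨c, u, hcu⟩ : ∃ c u : ℕ, c + 36 * n + 1 = T * (u + 1) := by
    refine ⟨T * (36 * n + 1) - 36 * n - 1, 36 * n, ?_⟩
    have : 36 * n + 1 ≤ T * (36 * n + 1) := Nat.le_mul_of_pos_left _ hTpos
    omega
  have hM : ∀ x ∈ A, ∀ y ∈ A,
      (((1 : PP) + X) ^ (c + (DD x y + 36 * n))).coeff (T - 1) = if x = y then 1 else 0 := by
    intro x hx y hy
    have hsum : c + (DD x y + 36 * n) + 1 = T * (u + 1) + DD x y := by omega
    obtain ⟨s, r, hr, hs⟩ : ∃ s r : ℕ, r < T ∧ c + (DD x y + 36 * n) = T * s + r :=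
      ⟨(c + (DD x y + 36 * n)) / T, (c + (DD x y + 36 * n)) % T, Nat.mod_lt _ hTpos,
        (Nat.div_add_mod _ _).symm⟩
    rw [hs, coeff_one_add_pow (b + 1) s r hr]
    by_cases hxy : x = y
    · subst hxy
      have hD : DD x x = 0 := by simp [DD, sq]
      rw [hD] at hsum hs
      rw [if_pos rfl, if_pos]
      have : T * s + r + 1 = T * (u + 1) := by omega
      have hdvd : T ∣ r + 1 := by
        have h3 : T ∣ T * s + (r + 1) := ⟨u + 1, by omega⟩
        exact (Nat.dvd_add_right (Dvd.intro s rfl)).1 h3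
      have := Nat.le_of_dvd (Nat.succ_pos r) hdvd
      omega
    · rw [if_neg hxy, if_neg]
      intro hrT
      apply hA x hx y hy hxy
      have h3 : T * (u + 1) + DD x y = T * (s + 1) := by
        have : T * (s + 1) = T * s + T := by ring
        omega
      have h4 : T ∣ T * (u + 1) + DD x y := ⟨s + 1, h3⟩
      exact (Nat.dvd_add_right (Dvd.intro (u + 1) rfl)).1 h4
  -- index set
  set J := ((univ : Finset (Fin n → Fin 7)).filter (fun κ => EE κ < 2 ^ b)) with hJ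
  have hmem : ∀ κ' : Fin n → Fin 7, κ' ∈ J → EE κ' < 2 ^ b := by
    intro κ' h'
    rw [hJ] at h'
    exact (mem_filter.1 h').2
  let U' : Matrix A (J × Fin T) (ZMod 2) := fun x κr =>
    (((1 : PP) + X) ^ c * U x κr.1).coeff κr.2
  let W' : Matrix (J × Fin T) A (ZMod 2) := fun κr y =>
    if 2 * EE (κr.1 : Fin n → Fin 7) + κr.2 ≤ T - 1 then
      (W y κr.1).coeff (T - 1 - 2 * EE (κr.1 : Fin n → Fin 7) - κr.2) else 0
  have hprod : U' * W' = 1 := by
    ext x y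
    rw [Matrix.mul_apply, Matrix.one_apply]
    have h1 := hM x x.2 y y.2
    rw [pow_add, h, mul_sum, finsetSum_coeff] at h1
    have h2 : (∑ κ : Fin n → Fin 7,
        (((1 : PP) + X) ^ c * (X ^ (2 * EE κ) * (U x κ * W y κ))).coeff (T - 1))
        = ∑ κ ∈ J, (((1 : PP) + X) ^ c * (X ^ (2 * EE κ) * (U x κ * W y κ))).coeff (T - 1) := by
      symm
      apply sum_subset (subset_univ _)
      intro κ _ hκ
      have hge : 2 ^ b ≤ EE κ := by
        by_contra hlt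
        exact hκ (by rw [hJ]; simp; omega)
      have : ((1 : PP) + X) ^ c * (X ^ (2 * EE κ) * (U x κ * W y κ))
          = X ^ (2 * EE κ) * (((1 : PP) + X) ^ c * (U x κ * W y κ)) := by ring
      rw [this, coeff_X_pow_mul', if_neg]
      have : T = 2 * 2 ^ b := by rw [hT]; ring
      omega
    rw [h2] at h1
    rw [Fintype.sum_prod_type]
    have h3 : (∑ κ ∈ J, (((1 : PP) + X) ^ c * (X ^ (2 * EE κ) * (U x κ * W y κ))).coeff (T - 1))
        = ∑ κ : J, (((1 : PP) + X) ^ c * (X ^ (2 * EE (κ : Fin n → Fin 7)) * (U x κ * W y κ))).coeff (T - 1) := by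
      rw [← Finset.sum_coe_sort J]
    rw [h3] at h1
    have h4 : (if (x : Fin n → Fin 7) = y then (1 : ZMod 2) else 0) = if x = y then 1 else 0 := by
      by_cases hxy : x = y
      · rw [if_pos hxy, if_pos (by rw [hxy])]
      · rw [if_neg hxy, if_neg (fun hh => hxy (Subtype.ext hh))]
    rw [← h4, ← h1]
    apply sum_congr rfl
    intro κ _
    have hκ : EE (κ : Fin n → Fin 7) < 2 ^ b := hmem κ κ.2
    have hT2 : T = 2 * 2 ^ b := by rw [hT]; ring
    have e1 : ((1 : PP) + X) ^ c * (X ^ (2 * EE (κ : Fin n → Fin 7)) * (U x κ * W y κ))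
          = X ^ (2 * EE (κ : Fin n → Fin 7)) * ((((1 : PP) + X) ^ c * U x κ) * W y κ) := by ring
    rw [e1, coeff_split _ _ _ _ (by omega)]
  have hrank : (1 : Matrix A A (ZMod 2)).rank ≤ Fintype.card (J × Fin T) := by
    rw [← hprod]
    exact (Matrix.rank_mul_le_left U' W').trans (Matrix.rank_le_card_width U')
  rw [Matrix.rank_one] at hrank
  simp only [Fintype.card_coe, Fintype.card_prod, Fintype.card_fin] at hrank
  calc A.card ≤ J.card * T := hrank
    _ = T * J.card := mul_comm _ _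

end Pool.Agent.H6.Chi
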