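import Mathlib
import Pool.Agent.H6.Chi.Kernel

set_option autoImplicit false

namespace Pool.Agent.H6.Chi

open Finset

/-- the potential `2 s^2 - s` of the letter `v`, `s = v - 3`. -/
def pot : ℕ → ℕ
  | 0 => 21
  | 1 => 10
  | 2 => 3
  | 3 => 0
  | 4 => 1
  | 5 => 6
  | _ => 15

/-- total potential of a word. -/
def PH {n : ℕ} (x : Fin n → Fin 7) : ℕ := ∑ i, pot (x i)

lemma sq_le (i j : Fin 7) : sq i j ≤ pot i + pot j := by
  revert i j
  unfold sq
  decide

lemma DD_le {n : ℕ} (x y : Fin n → Fin 7) : DD x y ≤ PH x + PH y := by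
  unfold DD PH
  rw [← sum_add_distrib]
  exact sum_le_sum (fun i _ => sq_le (x i) (y i))

lemma DD_pos {n : ℕ} (x y : Fin n → Fin 7) (h : x ≠ y) : 0 < DD x y := by
  obtain ⟨i, hi⟩ := Function.ne_iff.1 h
  unfold DD
  apply Finset.sum_pos'
  · intro _ _; exact Nat.zero_le _
  · refine ⟨i, mem_univ i, ?_⟩
    unfold sq
    apply pow_pos
    have : ((x i : ℕ) : ℤ) ≠ ((y i : ℕ) : ℤ) := by
      intro hh
      apply hi
      exact Fin.ext (by exact_mod_cast hh)
    exact Int.natAbs_pos.2 (sub_ne_zero.2 this)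

/-- the point of Euclidean space attached to a word. -/
noncomputable def pt (n T : ℕ) (x : Fin n → Fin 7) : EuclideanSpace ℝ (Fin n) :=
  WithLp.toLp 2 (fun i => ((x i : ℕ) : ℝ) / Real.sqrt T)

lemma dist_pt (n T : ℕ) (hT : 0 < T) (x y : Fin n → Fin 7) (h : DD x y = T) :
    dist (pt n T x) (pt n T y) = 1 := by
  rw [EuclideanSpace.dist_eq]
  have h1 : ∀ i, dist ((pt n T x) i) ((pt n T y) i) ^ 2 = ((sq (x i) (y i) : ℕ) : ℝ) / T := by
    intro i
    have hT' : (0 : ℝ) < T := by exact_mod_cast hT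
    simp only [pt, Real.dist_eq, sq_abs]
    rw [← sub_div, div_pow, Real.sq_sqrt hT'.le]
    congr 1
    unfold sq
    have : (((((x i : ℕ) : ℤ) - ((y i : ℕ) : ℤ)).natAbs ^ 2 : ℕ) : ℝ)
        = ((((x i : ℕ) : ℤ) - ((y i : ℕ) : ℤ) : ℤ) : ℝ) ^ 2 := by
      rw [Nat.cast_pow, Nat.cast_natAbs, Int.cast_abs, sq_abs]
    rw [this]
    push_cast
    ring
  rw [sum_congr rfl (fun i _ => h1 i), ← sum_div]
  have h2 : (∑ i, ((sq (x i) (y i) : ℕ) : ℝ)) = T := by
    rw [← Nat.cast_sum]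
    exact_mod_cast h
  rw [h2, div_self (by exact_mod_cast hT.ne'), Real.sqrt_one]

/-- A proper colouring of Euclidean space needs many colours. -/
theorem geom_bound (n b k : ℕ) (f : EuclideanSpace ℝ (Fin n) → Fin k)
    (hf : ∀ x y, dist x y = 1 → f x ≠ f y) :
    ((univ : Finset (Fin n → Fin 7)).filter (fun x => PH x < 2 ^ (b + 1))).card
      ≤ k * (2 ^ (b + 1) *
        ((univ : Finset (Fin n → Fin 7)).filter (fun κ => EE κ < 2 ^ b)).card) := by
  classical
  set V := (univ : Finset (Fin n → Fin 7)).filter (fun x => PH x < 2 ^ (b + 1)) with hV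
  have h1 : V.card = ∑ c : Fin k, (V.filter (fun x => f (pt n (2 ^ (b + 1)) x) = c)).card :=
    Finset.card_eq_sum_card_fiberwise (fun x _ => mem_univ _)
  rw [h1]
  have h2 : ∀ c : Fin k, (V.filter (fun x => f (pt n (2 ^ (b + 1)) x) = c)).card
      ≤ 2 ^ (b + 1) * ((univ : Finset (Fin n → Fin 7)).filter (fun κ => EE κ < 2 ^ b)).card := by
    intro c
    apply indep_bound
    intro x hx y hy hxy hdvd
    rw [mem_filter, hV, mem_filter] at hx hy
    have hlt : DD x y < 2 * 2 ^ (b + 1) := by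
      have := DD_le x y
      omega
    have hpos := DD_pos x y hxy
    obtain ⟨m, hm⟩ := hdvd
    have hm1 : m = 1 := by
      have hp : 0 < 2 ^ (b + 1) := by positivity
      rcases m with _ | _ | m
      · omega
      · rfl
      · exfalso
        have : 2 ^ (b + 1) * (m + 1 + 1) = 2 * 2 ^ (b + 1) + 2 ^ (b + 1) * m := by ring
        omega
    rw [hm1, mul_one] at hm
    have hd := dist_pt n (2 ^ (b + 1)) (by positivity) x y hm
    exact hf _ _ hd (by rw [hx.2, hy.2])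
  calc ∑ c : Fin k, (V.filter (fun x => f (pt n (2 ^ (b + 1)) x) = c)).card
      ≤ ∑ _c : Fin k, 2 ^ (b + 1) *
        ((univ : Finset (Fin n → Fin 7)).filter (fun κ => EE κ < 2 ^ b)).card :=
        sum_le_sum (fun c _ => h2 c)
    _ = _ := by simp

/-- Upper bound for the number of exponent words. -/
lemma EE_count (n q : ℕ) (t : ℝ) (ht : 0 < t) (ht1 : t ≤ 1) :
    (((univ : Finset (Fin n → Fin 7)).filter (fun κ => EE κ < q)).card : ℝ) * t ^ q
      ≤ (1 + t + t ^ 3 + t ^ 4 + t ^ 8 + t ^ 9 + t ^ 11) ^ n := by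
  have h1 : (1 + t + t ^ 3 + t ^ 4 + t ^ 8 + t ^ 9 + t ^ 11) ^ n
      = ∑ κ : Fin n → Fin 7, t ^ EE κ := by
    have h2 : (1 + t + t ^ 3 + t ^ 4 + t ^ 8 + t ^ 9 + t ^ 11) = ∑ a : Fin 7, t ^ ev a := by
      simp [Fin.sum_univ_succ, ev]; ring
    rw [h2, Fintype.sum_pow]
    apply sum_congr rfl
    intro κ _
    rw [prod_pow_eq_pow_sum, EE]
  rw [h1]
  calc (((univ : Finset (Fin n → Fin 7)).filter (fun κ => EE κ < q)).card : ℝ) * t ^ q
      = ∑ κ ∈ (univ : Finset (Fin n → Fin 7)).filter (fun κ => EE κ < q), t ^ q := by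
        rw [sum_const, nsmul_eq_mul]
    _ ≤ ∑ κ ∈ (univ : Finset (Fin n → Fin 7)).filter (fun κ => EE κ < q), t ^ EE κ := by
        apply sum_le_sum
        intro κ hκ
        exact pow_le_pow_of_le_one ht.le ht1 (mem_filter.1 hκ).2.le
    _ ≤ ∑ κ : Fin n → Fin 7, t ^ EE κ := by
        apply sum_le_sum_of_subset_of_nonneg (filter_subset _ _)
        intro κ _ _
        positivity

end Pool.Agent.H6.Chi
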