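import Mathlib
import Pool.Agent.H6.Chi.Geometry

set_option autoImplicit false

namespace Pool.Agent.H6.Chi

open Finset

/-- summing over words of length `n + 1`. -/
lemma sum_cons (n : ℕ) (F : (Fin (n + 1) → Fin 7) → ℝ) :
    ∑ x : Fin (n + 1) → Fin 7, F x = ∑ a : Fin 7, ∑ x : Fin n → Fin 7, F (Fin.cons a x) := by
  rw [← (Fin.consEquiv (fun _ : Fin (n + 1) => Fin 7)).sum_comp F, Fintype.sum_prod_type]
  rfl

/-- The first moments of a sum of independent centred variables. -/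
lemma moments (n : ℕ) : ∀ (p g : Fin n → Fin 7 → ℝ), (∀ i, ∑ a, p i a = 1) →
    (∀ i, ∑ a, p i a * g i a = 0) →
    (∑ x : Fin n → Fin 7, ∏ i, p i (x i) = 1) ∧
    (∑ x : Fin n → Fin 7, (∏ i, p i (x i)) * (∑ i, g i (x i)) = 0) ∧
    (∑ x : Fin n → Fin 7, (∏ i, p i (x i)) * (∑ i, g i (x i)) ^ 2
      = ∑ i, ∑ a, p i a * g i a ^ 2) := by
  induction n with
  | zero => intro p g _ _; simp
  | succ n ih =>
    intro p g hp hg
    obtain ⟨h0, h1, h2⟩ := ih (fun i => p i.succ) (fun i => g i.succ) (fun i => hp _)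
      (fun i => hg _)
    refine ⟨?_, ?_, ?_⟩
    · rw [sum_cons]
      simp only [Fin.prod_univ_succ, Fin.cons_zero, Fin.cons_succ]
      simp_rw [← mul_sum, h0, mul_one]
      exact hp 0
    · rw [sum_cons]
      simp only [Fin.prod_univ_succ, Fin.sum_univ_succ, Fin.cons_zero, Fin.cons_succ]
      have : ∀ a : Fin 7, ∑ x : Fin n → Fin 7,
          (p 0 a * ∏ i : Fin n, p i.succ (x i)) * (g 0 a + ∑ i : Fin n, g i.succ (x i))
          = p 0 a * g 0 a := by
        intro a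
        have e : ∀ x : Fin n → Fin 7,
          (p 0 a * ∏ i : Fin n, p i.succ (x i)) * (g 0 a + ∑ i : Fin n, g i.succ (x i))
          = p 0 a * g 0 a * (∏ i : Fin n, p i.succ (x i))
            + p 0 a * ((∏ i : Fin n, p i.succ (x i)) * (∑ i : Fin n, g i.succ (x i))) := by
          intro x; ring
        simp_rw [e]
        rw [sum_add_distrib, ← mul_sum, ← mul_sum, h0, h1]
        ring
      simp_rw [this]
      exact hg 0
    · rw [sum_cons]
      simp only [Fin.prod_univ_succ, Fin.sum_univ_succ (n := n), Fin.cons_zero, Fin.cons_succ]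
      have : ∀ a : Fin 7, ∑ x : Fin n → Fin 7,
          (p 0 a * ∏ i : Fin n, p i.succ (x i)) * (g 0 a + ∑ i : Fin n, g i.succ (x i)) ^ 2
          = p 0 a * g 0 a ^ 2 + p 0 a * ∑ i : Fin n, ∑ a, p i.succ a * g i.succ a ^ 2 := by
        intro a
        have e : ∀ x : Fin n → Fin 7,
          (p 0 a * ∏ i : Fin n, p i.succ (x i)) * (g 0 a + ∑ i : Fin n, g i.succ (x i)) ^ 2
          = p 0 a * g 0 a ^ 2 * (∏ i : Fin n, p i.succ (x i))
            + 2 * p 0 a * g 0 a * ((∏ i : Fin n, p i.succ (x i)) * (∑ i : Fin n, g i.succ (x i)))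
            + p 0 a * ((∏ i : Fin n, p i.succ (x i)) * (∑ i : Fin n, g i.succ (x i)) ^ 2) := by
          intro x; ring
        simp_rw [e]
        rw [sum_add_distrib, sum_add_distrib, ← mul_sum, ← mul_sum, ← mul_sum, h0, h1, h2]
        ring
      simp_rw [this]
      rw [sum_add_distrib, ← sum_mul, hp 0, one_mul]

/-- Chebyshev. -/
lemma cheb (n : ℕ) (p g : Fin n → Fin 7 → ℝ) (hp0 : ∀ i a, 0 ≤ p i a) (hp : ∀ i, ∑ a, p i a = 1)
    (hg : ∀ i, ∑ a, p i a * g i a = 0) (c : ℝ) (hc : 0 < c)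
    (hv : 4 * ∑ i, ∑ a, p i a * g i a ^ 2 ≤ c ^ 2) :
    ∑ x ∈ (univ : Finset (Fin n → Fin 7)).filter (fun x => c < |∑ i, g i (x i)|),
      ∏ i, p i (x i) ≤ 1 / 4 := by
  obtain ⟨_, _, h2⟩ := moments n p g hp hg
  have h3 : c ^ 2 * ∑ x ∈ (univ : Finset (Fin n → Fin 7)).filter (fun x => c < |∑ i, g i (x i)|),
      ∏ i, p i (x i) ≤ ∑ i, ∑ a, p i a * g i a ^ 2 := by
    rw [← h2, mul_sum]
    calc ∑ x ∈ (univ : Finset (Fin n → Fin 7)).filter (fun x => c < |∑ i, g i (x i)|),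
          c ^ 2 * ∏ i, p i (x i)
        ≤ ∑ x ∈ (univ : Finset (Fin n → Fin 7)).filter (fun x => c < |∑ i, g i (x i)|),
          (∏ i, p i (x i)) * (∑ i, g i (x i)) ^ 2 := by
          apply sum_le_sum
          intro x hx
          have hlt := (mem_filter.1 hx).2
          have hw : 0 ≤ ∏ i, p i (x i) := prod_nonneg (fun i _ => hp0 i _)
          have : c ^ 2 ≤ (∑ i, g i (x i)) ^ 2 := by
            rw [← sq_abs (∑ i, g i (x i))]
            exact pow_le_pow_left₀ hc.le hlt.le 2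
          nlinarith
      _ ≤ ∑ x : Fin n → Fin 7, (∏ i, p i (x i)) * (∑ i, g i (x i)) ^ 2 := by
          apply sum_le_sum_of_subset_of_nonneg (filter_subset _ _)
          intro x _ _
          exact mul_nonneg (prod_nonneg (fun i _ => hp0 i _)) (sq_nonneg _)
  have hc2 : 0 < c ^ 2 := by positivity
  nlinarith

lemma sum_union_le' {α : Type*} [DecidableEq α] (s t : Finset α) {f : α → ℝ}
    (hf : ∀ x, 0 ≤ f x) : ∑ x ∈ s ∪ t, f x ≤ ∑ x ∈ s, f x + ∑ x ∈ t, f x := by
  rw [← sum_union_inter]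
  have : 0 ≤ ∑ x ∈ s ∩ t, f x := sum_nonneg (fun x _ => hf x)
  linarith

/-- Entropy lower bound for the number of words of bounded potential. -/
theorem count_lower (n : ℕ) (p : Fin n → Fin 7 → ℝ) (hp0 : ∀ i a, 0 ≤ p i a)
    (hp : ∀ i, ∑ a, p i a = 1) (c : ℝ) (hc : 0 < c) (Mu Hh : Fin n → ℝ)
    (hMu : ∀ i, Mu i = ∑ a, p i a * (pot a : ℝ))
    (hH : ∀ i, Hh i = ∑ a, p i a * (-Real.log (p i a)))
    (hv1 : 4 * ∑ i, ∑ a, p i a * ((pot a : ℝ) - Mu i) ^ 2 ≤ c ^ 2)
    (hv2 : 4 * ∑ i, ∑ a, p i a * (-Real.log (p i a) - Hh i) ^ 2 ≤ c ^ 2)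
    (L : ℕ) (hL : ∑ i, Mu i + c < L) :
    1 / 2 * Real.exp (∑ i, Hh i - c)
      ≤ (((univ : Finset (Fin n → Fin 7)).filter (fun x => PH x < L)).card : ℝ) := by
  classical
  have c1 := cheb n p (fun i a => (pot a : ℝ) - Mu i) hp0 hp (by
    intro i
    have : ∑ a, p i a * ((pot a : ℝ) - Mu i) = ∑ a, p i a * (pot a : ℝ) - (∑ a, p i a) * Mu i := by
      rw [sum_mul, ← sum_sub_distrib]
      exact sum_congr rfl (fun a _ => by ring)
    rw [this, hp i, hMu i]; ring) c hc hv1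
  have c2 := cheb n p (fun i a => -Real.log (p i a) - Hh i) hp0 hp (by
    intro i
    have : ∑ a, p i a * (-Real.log (p i a) - Hh i)
        = ∑ a, p i a * (-Real.log (p i a)) - (∑ a, p i a) * Hh i := by
      rw [sum_mul, ← sum_sub_distrib]
      exact sum_congr rfl (fun a _ => by ring)
    rw [this, hp i, hH i]; ring) c hc hv2
  obtain ⟨h0, _, _⟩ := moments n p (fun i a => (pot a : ℝ) - Mu i) hp (by
    intro i
    have : ∑ a, p i a * ((pot a : ℝ) - Mu i) = ∑ a, p i a * (pot a : ℝ) - (∑ a, p i a) * Mu i := by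
      rw [sum_mul, ← sum_sub_distrib]
      exact sum_congr rfl (fun a _ => by ring)
    rw [this, hp i, hMu i]; ring)
  set B1 := (univ : Finset (Fin n → Fin 7)).filter
    (fun x => c < |∑ i, ((pot (x i) : ℝ) - Mu i)|) with hB1
  set B2 := (univ : Finset (Fin n → Fin 7)).filter
    (fun x => c < |∑ i, (-Real.log (p i (x i)) - Hh i)|) with hB2
  set V := (univ : Finset (Fin n → Fin 7)).filter (fun x => PH x < L) with hV
  have hcover : ∀ x : Fin n → Fin 7, x ∉ B1 → x ∈ V := by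
    intro x h1
    rw [hV, mem_filter]
    refine ⟨mem_univ _, ?_⟩
    have h1' : |∑ i, ((pot (x i) : ℝ) - Mu i)| ≤ c := by
      by_contra hh
      exact h1 (by rw [hB1, mem_filter]; exact ⟨mem_univ _, not_le.1 hh⟩)
    have h2 : ∑ i, ((pot (x i) : ℝ) - Mu i) = (PH x : ℝ) - ∑ i, Mu i := by
      rw [sum_sub_distrib, PH]; push_cast; rfl
    rw [h2] at h1'
    have h3 := (abs_le.1 h1').2
    have : (PH x : ℝ) < L := by linarith
    exact_mod_cast this
  have hw : ∀ x : Fin n → Fin 7, x ∉ B2 → ∏ i, p i (x i) ≤ Real.exp (-(∑ i, Hh i) + c) := by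
    intro x h2
    have h2' : |∑ i, (-Real.log (p i (x i)) - Hh i)| ≤ c := by
      by_contra hh
      exact h2 (by rw [hB2, mem_filter]; exact ⟨mem_univ _, not_le.1 hh⟩)
    have h3 : ∏ i, p i (x i) ≤ ∏ i, Real.exp (Real.log (p i (x i))) := by
      apply prod_le_prod (fun i _ => hp0 i _)
      intro i _
      rcases (hp0 i (x i)).lt_or_eq with h | h
      · rw [Real.exp_log h]
      · rw [← h]; positivity
    refine h3.trans ?_
    rw [← Real.exp_sum, Real.exp_le_exp]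
    have h4 : ∑ i, (-Real.log (p i (x i)) - Hh i) = -(∑ i, Real.log (p i (x i))) - ∑ i, Hh i := by
      rw [sum_sub_distrib, sum_neg_distrib]
    rw [h4] at h2'
    have := (abs_le.1 h2').1
    linarith
  -- total mass
  have hmass : (1 : ℝ) ≤ 1 / 4 + 1 / 4 + ∑ x ∈ univ.filter (fun x => x ∉ B1 ∧ x ∉ B2),
      ∏ i, p i (x i) := by
    have hnn : ∀ x : Fin n → Fin 7, 0 ≤ ∏ i, p i (x i) := fun x => prod_nonneg (fun i _ => hp0 i _)
    calc (1 : ℝ) = ∑ x : Fin n → Fin 7, ∏ i, p i (x i) := h0.symm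
      _ ≤ ∑ x ∈ B1 ∪ (B2 ∪ univ.filter (fun x => x ∉ B1 ∧ x ∉ B2)), ∏ i, p i (x i) := by
          apply sum_le_sum_of_subset_of_nonneg
          · intro x _
            by_cases h1 : x ∈ B1
            · exact mem_union_left _ h1
            · by_cases h2 : x ∈ B2
              · exact mem_union_right _ (mem_union_left _ h2)
              · exact mem_union_right _ (mem_union_right _ (mem_filter.2 ⟨mem_univ _, h1, h2⟩))
          · intro x _ _; exact hnn x
      _ ≤ ∑ x ∈ B1, ∏ i, p i (x i) + (∑ x ∈ B2, ∏ i, p i (x i)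
            + ∑ x ∈ univ.filter (fun x => x ∉ B1 ∧ x ∉ B2), ∏ i, p i (x i)) := by
          refine (sum_union_le' _ _ hnn).trans ?_
          gcongr
          exact sum_union_le' _ _ hnn
      _ ≤ _ := by linarith
  have hgood : ∑ x ∈ univ.filter (fun x => x ∉ B1 ∧ x ∉ B2), ∏ i, p i (x i)
      ≤ (V.card : ℝ) * Real.exp (-(∑ i, Hh i) + c) := by
    calc ∑ x ∈ univ.filter (fun x => x ∉ B1 ∧ x ∉ B2), ∏ i, p i (x i)
        ≤ ∑ x ∈ univ.filter (fun x => x ∉ B1 ∧ x ∉ B2), Real.exp (-(∑ i, Hh i) + c) := by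
          apply sum_le_sum
          intro x hx
          exact hw x (mem_filter.1 hx).2.2
      _ ≤ ∑ x ∈ V, Real.exp (-(∑ i, Hh i) + c) := by
          apply sum_le_sum_of_subset_of_nonneg
          · intro x hx
            exact hcover x (mem_filter.1 hx).2.1
          · intro x _ _; positivity
      _ = _ := by rw [sum_const, nsmul_eq_mul]
  have hfin : (1 : ℝ) / 2 ≤ (V.card : ℝ) * Real.exp (-(∑ i, Hh i) + c) := by linarith
  have hE : Real.exp (-(∑ i, Hh i) + c) * Real.exp (∑ i, Hh i - c) = 1 := by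
    rw [← Real.exp_add]; simp
  calc 1 / 2 * Real.exp (∑ i, Hh i - c)
      ≤ ((V.card : ℝ) * Real.exp (-(∑ i, Hh i) + c)) * Real.exp (∑ i, Hh i - c) := by
        gcongr
    _ = V.card := by rw [mul_assoc, hE, mul_one]

end Pool.Agent.H6.Chi
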