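import Mathlib
import Pool.Agent.H6.Chi.Entropy

set_option autoImplicit false

namespace Pool.Agent.H6.Chi

open Finset

/-- mean potential. -/
noncomputable def mean (p : Fin 7 → ℝ) : ℝ := ∑ a, p a * (pot a : ℝ)

/-- entropy. -/
noncomputable def ent (p : Fin 7 → ℝ) : ℝ := ∑ a, p a * (-Real.log (p a))

/-- generating function of the exponents. -/
noncomputable def Eg (t : ℝ) : ℝ := 1 + t + t ^ 3 + t ^ 4 + t ^ 8 + t ^ 9 + t ^ 11

lemma sum_ite_lt (n m : ℕ) (hm : m ≤ n) (A B : ℝ) :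
    ∑ i : Fin n, (if (i : ℕ) < m then A else B) = m * A + (n - m) * B := by
  rw [Fin.sum_univ_eq_sum_range (fun i => if i < m then A else B) n, Finset.sum_ite]
  have h1 : (range n).filter (fun i => i < m) = range m := by
    ext i; simp only [mem_filter, mem_range]; omega
  have h2 : (range n).filter (fun i => ¬ i < m) = Ico m n := by
    ext i; simp only [mem_filter, mem_range, mem_Ico]; omega
  rw [h1, h2, sum_const, sum_const, card_range, Nat.card_Ico, nsmul_eq_mul, nsmul_eq_mul,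
    Nat.cast_sub hm]

lemma log_le_two_sqrt (x : ℝ) (hx : 0 < x) : Real.log x ≤ 2 * Real.sqrt x := by
  have h1 := Real.log_le_sub_one_of_pos (Real.sqrt_pos.2 hx)
  rw [Real.log_sqrt hx.le] at h1
  linarith

/-- sum of the four variances. -/
noncomputable def vsum (p1 p2 : Fin 7 → ℝ) : ℝ :=
  (∑ a, p1 a * ((pot a : ℝ) - mean p1) ^ 2) + (∑ a, p2 a * ((pot a : ℝ) - mean p2) ^ 2)
  + ((∑ a, p1 a * (-Real.log (p1 a) - ent p1) ^ 2) + (∑ a, p2 a * (-Real.log (p2 a) - ent p2) ^ 2))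

lemma var_aux (n n2 : ℕ) (hn2n : n2 ≤ n) (K w1 w2 : ℝ) (hw1 : 0 ≤ w1) (hw2 : 0 ≤ w2)
    (hK : 1 + 4 * (w1 + w2) ≤ K) :
    4 * ((n2 : ℝ) * w2 + (n - n2) * w1) ≤ (K * Real.sqrt n) ^ 2 := by
  have hn0 : (0 : ℝ) ≤ n := Nat.cast_nonneg _
  have hn2' : (n2 : ℝ) ≤ n := by exact_mod_cast hn2n
  rw [mul_pow, Real.sq_sqrt hn0]
  have h1 : (n2 : ℝ) * w2 ≤ n * w2 := mul_le_mul_of_nonneg_right hn2' hw2
  have h2 : ((n : ℝ) - n2) * w1 ≤ n * w1 := by
    apply mul_le_mul_of_nonneg_right _ hw1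
    have : (0 : ℝ) ≤ n2 := Nat.cast_nonneg _
    linarith
  have h3 : K ≤ K ^ 2 := by nlinarith
  have h4 : 4 * (w1 + w2) ≤ K ^ 2 := by linarith
  have h5 : 4 * (w1 + w2) * n ≤ K ^ 2 * n := mul_le_mul_of_nonneg_right h4 hn0
  linarith

lemma mix_lower (p1 p2 : Fin 7 → ℝ) (hp1 : ∀ a, 0 ≤ p1 a) (hp2 : ∀ a, 0 ≤ p2 a)
    (hs1 : ∑ a, p1 a = 1) (hs2 : ∑ a, p2 a = 1) (n n2 : ℕ) (hn : 1 ≤ n) (hn2n : n2 ≤ n)
    (K : ℝ) (hK : 1 + 4 * vsum p1 p2 ≤ K) (L : ℕ)
    (hL : (n2 : ℝ) * mean p2 + (n - n2) * mean p1 + K * Real.sqrt n < L) :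
    1 / 2 * Real.exp ((n2 : ℝ) * ent p2 + (n - n2) * ent p1 - K * Real.sqrt n)
      ≤ (((univ : Finset (Fin n → Fin 7)).filter (fun x => PH x < L)).card : ℝ) := by
  unfold vsum at hK
  have v1n : 0 ≤ ∑ a, p1 a * ((pot a : ℝ) - mean p1) ^ 2 :=
    sum_nonneg (fun a _ => mul_nonneg (hp1 a) (sq_nonneg _))
  have v2n : 0 ≤ ∑ a, p2 a * ((pot a : ℝ) - mean p2) ^ 2 :=
    sum_nonneg (fun a _ => mul_nonneg (hp2 a) (sq_nonneg _))
  have u1n : 0 ≤ ∑ a, p1 a * (-Real.log (p1 a) - ent p1) ^ 2 :=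
    sum_nonneg (fun a _ => mul_nonneg (hp1 a) (sq_nonneg _))
  have u2n : 0 ≤ ∑ a, p2 a * (-Real.log (p2 a) - ent p2) ^ 2 :=
    sum_nonneg (fun a _ => mul_nonneg (hp2 a) (sq_nonneg _))
  have hnpos : (0 : ℝ) < n := by exact_mod_cast hn
  have hsn : 0 < Real.sqrt n := Real.sqrt_pos.2 hnpos
  have hKpos : 0 < K := by linarith
  have hlow := count_lower n (fun i => if (i : ℕ) < n2 then p2 else p1)
    (by intro i a; split_ifs; exacts [hp2 a, hp1 a])
    (by intro i; split_ifs; exacts [hs2, hs1])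
    (K * Real.sqrt n) (by positivity)
    (fun i => if (i : ℕ) < n2 then mean p2 else mean p1)
    (fun i => if (i : ℕ) < n2 then ent p2 else ent p1)
    (by intro i; split_ifs <;> rfl)
    (by intro i; split_ifs <;> rfl)
    (by
      have e : ∀ i : Fin n, ∑ a, (if (i : ℕ) < n2 then p2 else p1) a *
          ((pot a : ℝ) - if (i : ℕ) < n2 then mean p2 else mean p1) ^ 2
          = if (i : ℕ) < n2 then ∑ a, p2 a * ((pot a : ℝ) - mean p2) ^ 2
            else ∑ a, p1 a * ((pot a : ℝ) - mean p1) ^ 2 := by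
        intro i; split_ifs <;> rfl
      rw [sum_congr rfl (fun i _ => e i), sum_ite_lt n n2 hn2n]
      exact var_aux n n2 hn2n K _ _ v1n v2n (by linarith))
    (by
      have e : ∀ i : Fin n, ∑ a, (if (i : ℕ) < n2 then p2 else p1) a *
          (-Real.log ((if (i : ℕ) < n2 then p2 else p1) a) - if (i : ℕ) < n2 then ent p2 else ent p1) ^ 2
          = if (i : ℕ) < n2 then ∑ a, p2 a * (-Real.log (p2 a) - ent p2) ^ 2
            else ∑ a, p1 a * (-Real.log (p1 a) - ent p1) ^ 2 := by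
        intro i; split_ifs <;> rfl
      rw [sum_congr rfl (fun i _ => e i), sum_ite_lt n n2 hn2n]
      exact var_aux n n2 hn2n K _ _ u1n u2n (by linarith))
    L (by rw [sum_ite_lt n n2 hn2n]; exact hL)
  rw [sum_ite_lt n n2 hn2n] at hlow
  exact hlow

lemma vsum_nonneg (p1 p2 : Fin 7 → ℝ) (hp1 : ∀ a, 0 ≤ p1 a) (hp2 : ∀ a, 0 ≤ p2 a) :
    0 ≤ vsum p1 p2 := by
  unfold vsum
  have v1n : 0 ≤ ∑ a, p1 a * ((pot a : ℝ) - mean p1) ^ 2 :=
    sum_nonneg (fun a _ => mul_nonneg (hp1 a) (sq_nonneg _))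
  have v2n : 0 ≤ ∑ a, p2 a * ((pot a : ℝ) - mean p2) ^ 2 :=
    sum_nonneg (fun a _ => mul_nonneg (hp2 a) (sq_nonneg _))
  have u1n : 0 ≤ ∑ a, p1 a * (-Real.log (p1 a) - ent p1) ^ 2 :=
    sum_nonneg (fun a _ => mul_nonneg (hp1 a) (sq_nonneg _))
  have u2n : 0 ≤ ∑ a, p2 a * (-Real.log (p2 a) - ent p2) ^ 2 :=
    sum_nonneg (fun a _ => mul_nonneg (hp2 a) (sq_nonneg _))
  linarith

/-- Combination of the counting estimates. -/
lemma chain (n b k : ℕ) (f : EuclideanSpace ℝ (Fin n) → Fin k)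
    (hf : ∀ x y, dist x y = 1 → f x ≠ f y) (t : ℝ) (ht : 0 < t) (ht1 : t ≤ 1) (S : ℝ)
    (hS : 1 / 2 * Real.exp S
      ≤ (((univ : Finset (Fin n → Fin 7)).filter (fun x => PH x < 2 ^ (b + 1))).card : ℝ)) :
    Real.exp (S - (n * Real.log (Eg t) - (2 : ℝ) ^ (b + 1) / 2 * Real.log t))
      ≤ k * (2 * (2 : ℝ) ^ (b + 1)) := by
  have hE : 0 < Eg t := by unfold Eg; positivity
  have hgeo := geom_bound n b k f hf
  have hcnt := EE_count n (2 ^ b) t ht ht1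
  have hgeo' : (((univ : Finset (Fin n → Fin 7)).filter (fun x => PH x < 2 ^ (b + 1))).card : ℝ)
      ≤ k * ((2 : ℝ) ^ (b + 1) *
        (((univ : Finset (Fin n → Fin 7)).filter (fun κ => EE κ < 2 ^ b)).card : ℝ)) := by
    exact_mod_cast hgeo
  have htq : t ^ (2 ^ b) = Real.exp ((2 : ℝ) ^ (b + 1) / 2 * Real.log t) := by
    have : ((2 : ℝ) ^ (b + 1) / 2 : ℝ) = ((2 ^ b : ℕ) : ℝ) := by rw [pow_succ]; push_cast; ring
    rw [this, Real.exp_nat_mul, Real.exp_log ht]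
  have hEn : (1 + t + t ^ 3 + t ^ 4 + t ^ 8 + t ^ 9 + t ^ 11) ^ n
      = Real.exp (n * Real.log (Eg t)) := by
    rw [Real.exp_nat_mul, Real.exp_log hE]; rfl
  rw [htq, hEn] at hcnt
  generalize (((univ : Finset (Fin n → Fin 7)).filter (fun κ => EE κ < 2 ^ b)).card : ℝ) = Bc at *
  generalize (((univ : Finset (Fin n → Fin 7)).filter (fun x => PH x < 2 ^ (b + 1))).card : ℝ) = Vc at *
  generalize hT : (2 : ℝ) ^ (b + 1) = T at *
  have hTpos : 0 < T := by rw [← hT]; positivity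
  have h1 : 1 / 2 * Real.exp S ≤ k * (T * Bc) := hS.trans hgeo'
  have hBle : Bc ≤ Real.exp (n * Real.log (Eg t) - T / 2 * Real.log t) := by
    have h10 : Real.exp (T / 2 * Real.log t) * Real.exp (-(T / 2 * Real.log t)) = 1 := by
      rw [← Real.exp_add]; simp
    calc Bc = (Bc * Real.exp (T / 2 * Real.log t)) * Real.exp (-(T / 2 * Real.log t)) := by
          rw [mul_assoc, h10, mul_one]
      _ ≤ Real.exp (n * Real.log (Eg t)) * Real.exp (-(T / 2 * Real.log t)) := by gcongr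
      _ = _ := by rw [← Real.exp_add]; ring_nf
  have h2 : 1 / 2 * Real.exp S ≤ k * (T * Real.exp (n * Real.log (Eg t) - T / 2 * Real.log t)) :=
    h1.trans (by gcongr)
  have h3 : Real.exp S = Real.exp (S - (n * Real.log (Eg t) - T / 2 * Real.log t))
      * Real.exp (n * Real.log (Eg t) - T / 2 * Real.log t) := by
    rw [← Real.exp_add]; ring_nf
  rw [h3] at h2
  have h4 : Real.exp (S - (n * Real.log (Eg t) - T / 2 * Real.log t))
      * Real.exp (n * Real.log (Eg t) - T / 2 * Real.log t)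
      ≤ (k * (2 * T)) * Real.exp (n * Real.log (Eg t) - T / 2 * Real.log t) := by linarith
  exact le_of_mul_le_mul_right h4 (Real.exp_pos _)

theorem key (p1 p2 : Fin 7 → ℝ) (hp1 : ∀ a, 0 ≤ p1 a) (hp2 : ∀ a, 0 ≤ p2 a)
    (hs1 : ∑ a, p1 a = 1) (hs2 : ∑ a, p2 a = 1) (m1 m2 : ℝ) (hm1 : mean p1 < m1)
    (hm2 : mean p2 < m2) (h12 : m1 < m2) (t : ℝ) (ht : 0 < t) (ht1 : t ≤ 1) (β : ℝ) (hβ : 0 < β)
    (h1 : Real.log β < ent p1 + m1 / 2 * Real.log t - Real.log (Eg t))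
    (h2 : Real.log β < ent p2 + m2 / 2 * Real.log t - Real.log (Eg t)) :
    ∃ N : ℕ, ∀ n ≥ N, ∀ b : ℕ, m1 * n ≤ 2 ^ (b + 1) → (2 : ℝ) ^ (b + 1) ≤ m2 * n →
      ∀ (k : ℕ) (f : EuclideanSpace ℝ (Fin n) → Fin k),
        (∀ x y, dist x y = 1 → f x ≠ f y) → β ^ n ≤ k := by
  obtain ⟨ε, hεpos, hε1, hε2⟩ : ∃ ε : ℝ, 0 < ε ∧ ε ≤ m1 - mean p1 ∧ ε ≤ m2 - mean p2 :=
    ⟨min (m1 - mean p1) (m2 - mean p2), lt_min (by linarith) (by linarith), min_le_left _ _,
      min_le_right _ _⟩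
  obtain ⟨η, hηpos, hη1, hη2⟩ : ∃ η : ℝ, 0 < η ∧
      η ≤ ent p1 + m1 / 2 * Real.log t - Real.log (Eg t) - Real.log β ∧
      η ≤ ent p2 + m2 / 2 * Real.log t - Real.log (Eg t) - Real.log β :=
    ⟨min _ _, lt_min (by linarith) (by linarith), min_le_left _ _, min_le_right _ _⟩
  obtain ⟨K, hK, hK1⟩ : ∃ K : ℝ, 1 + 4 * vsum p1 p2 ≤ K ∧ 1 ≤ K :=
    ⟨1 + 4 * vsum p1 p2, le_rfl, by linarith [vsum_nonneg p1 p2 hp1 hp2]⟩
  obtain ⟨C0, hC0, hC0n⟩ : ∃ C0 : ℝ, ent p2 - ent p1 ≤ C0 ∧ 0 ≤ C0 :=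
    ⟨|ent p2 - ent p1|, le_abs_self _, abs_nonneg _⟩
  obtain ⟨Q, hQ⟩ : ∃ Q : ℝ, Q = Real.sqrt (2 * |m2|) := ⟨_, rfl⟩
  have hQ0 : 0 ≤ Q := by rw [hQ]; exact Real.sqrt_nonneg _
  obtain ⟨N1, hN1⟩ := exists_nat_gt ((K / ε) ^ 2)
  obtain ⟨N2, hN2⟩ := exists_nat_gt (((C0 + (K + 2 * Q)) / η) ^ 2)
  refine ⟨max 1 (max N1 N2), ?_⟩
  intro n hn b hb1 hb2 k f hf
  have hn1 : 1 ≤ n := le_trans (le_max_left _ _) hn
  have hnN1 : N1 ≤ n := le_trans (le_trans (le_max_left _ _) (le_max_right _ _)) hn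
  have hnN2 : N2 ≤ n := le_trans (le_trans (le_max_right _ _) (le_max_right _ _)) hn
  have hnpos : (0 : ℝ) < n := by exact_mod_cast hn1
  have hsn : 0 < Real.sqrt n := Real.sqrt_pos.2 hnpos
  have hsn1 : 1 ≤ Real.sqrt n := by
    rw [Real.one_le_sqrt]; exact_mod_cast hn1
  have hsq : Real.sqrt n * Real.sqrt n = n := Real.mul_self_sqrt hnpos.le
  have hKε : K * Real.sqrt n < ε * n := by
    have h3 : K / ε < Real.sqrt n := by
      apply Real.lt_sqrt_of_sq_lt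
      calc (K / ε) ^ 2 < N1 := hN1
        _ ≤ n := by exact_mod_cast hnN1
    rw [div_lt_iff₀ hεpos] at h3
    calc K * Real.sqrt n < (Real.sqrt n * ε) * Real.sqrt n := mul_lt_mul_of_pos_right h3 hsn
      _ = ε * (Real.sqrt n * Real.sqrt n) := by ring
      _ = ε * n := by rw [hsq]
  have hKη : C0 + (K + 2 * Q) * Real.sqrt n ≤ η * n := by
    have h3 : (C0 + (K + 2 * Q)) / η < Real.sqrt n := by
      apply Real.lt_sqrt_of_sq_lt
      calc ((C0 + (K + 2 * Q)) / η) ^ 2 < N2 := hN2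
        _ ≤ n := by exact_mod_cast hnN2
    rw [div_lt_iff₀ hηpos] at h3
    have h4 : C0 * 1 ≤ C0 * Real.sqrt n := mul_le_mul_of_nonneg_left hsn1 hC0n
    calc C0 + (K + 2 * Q) * Real.sqrt n ≤ (C0 + (K + 2 * Q)) * Real.sqrt n := by linarith
      _ ≤ (Real.sqrt n * η) * Real.sqrt n := mul_le_mul_of_nonneg_right h3.le hsn.le
      _ = η * (Real.sqrt n * Real.sqrt n) := by ring
      _ = η * n := by rw [hsq]
  -- the split
  obtain ⟨T, hT⟩ : ∃ T : ℝ, T = 2 ^ (b + 1) := ⟨_, rfl⟩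
  rw [← hT] at hb1 hb2
  have hTpos : 0 < T := by rw [hT]; positivity
  have hd : 0 < m2 - m1 := by linarith
  obtain ⟨a, ha0, han, haT⟩ : ∃ a : ℝ, 0 ≤ a ∧ a ≤ n ∧ m1 * n + a * (m2 - m1) = T := by
    refine ⟨(T - m1 * n) / (m2 - m1), div_nonneg (by linarith) hd.le, ?_, ?_⟩
    · rw [div_le_iff₀ hd]; linarith
    · rw [div_mul_cancel₀ _ hd.ne']; ring
  obtain ⟨n2, hn2a, hn2a'⟩ : ∃ n2 : ℕ, (n2 : ℝ) ≤ a ∧ a < n2 + 1 :=
    ⟨⌊a⌋₊, Nat.floor_le ha0, Nat.lt_floor_add_one a⟩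
  have hn2n : n2 ≤ n := by
    have : (n2 : ℝ) ≤ n := hn2a.trans han
    exact_mod_cast this
  have hn2n' : (n2 : ℝ) ≤ n := by exact_mod_cast hn2n
  have hn2nn : (0 : ℝ) ≤ n2 := Nat.cast_nonneg _
  have hlow := mix_lower p1 p2 hp1 hp2 hs1 hs2 n n2 hn1 hn2n K hK (2 ^ (b + 1))
    (by
      push_cast
      rw [← hT]
      have h5 : (n2 : ℝ) * mean p2 ≤ n2 * (m2 - ε) := by
        apply mul_le_mul_of_nonneg_left _ hn2nn; linarith
      have h6 : ((n : ℝ) - n2) * mean p1 ≤ (n - n2) * (m1 - ε) := by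
        apply mul_le_mul_of_nonneg_left _ (by linarith); linarith
      have h7 : (n2 : ℝ) * (m2 - m1) ≤ a * (m2 - m1) := mul_le_mul_of_nonneg_right hn2a hd.le
      have h8 : (n2 : ℝ) * (m2 - ε) + (n - n2) * (m1 - ε)
        = m1 * n + n2 * (m2 - m1) - ε * n := by ring
      linarith)
  -- entropy estimate
  have hent : (n : ℝ) * (Real.log β + η + Real.log (Eg t)) - T / 2 * Real.log t - C0
      ≤ n2 * ent p2 + (n - n2) * ent p1 := by
    have e1 : (n2 : ℝ) * ent p2 + (n - n2) * ent p1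
        = a * ent p2 + (n - a) * ent p1 - (a - n2) * (ent p2 - ent p1) := by ring
    have e2 : (a - n2) * (ent p2 - ent p1) ≤ C0 := by
      have h8 : (a - n2) * (ent p2 - ent p1) ≤ (a - n2) * C0 :=
        mul_le_mul_of_nonneg_left hC0 (by linarith)
      have h9 : (a - n2) * C0 ≤ 1 * C0 := mul_le_mul_of_nonneg_right (by linarith) hC0n
      linarith
    have e3 : a * (Real.log β + η + Real.log (Eg t) - m2 / 2 * Real.log t) ≤ a * ent p2 := by
      apply mul_le_mul_of_nonneg_left _ ha0; linarith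
    have e4 : (n - a) * (Real.log β + η + Real.log (Eg t) - m1 / 2 * Real.log t)
        ≤ (n - a) * ent p1 := by
      apply mul_le_mul_of_nonneg_left _ (by linarith); linarith
    have e5 : a * (Real.log β + η + Real.log (Eg t) - m2 / 2 * Real.log t)
        + (n - a) * (Real.log β + η + Real.log (Eg t) - m1 / 2 * Real.log t)
        = (n : ℝ) * (Real.log β + η + Real.log (Eg t)) - T / 2 * Real.log t := by
      rw [← haT]; ring
    linarith
  have hch := chain n b k f hf t ht ht1 _ hlow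
  rw [← hT] at hch
  have hlogT : Real.log (2 * T) ≤ 2 * Q * Real.sqrt n := by
    have h5 : Real.sqrt (2 * T) ≤ Real.sqrt (2 * |m2| * n) := by
      apply Real.sqrt_le_sqrt
      have : m2 * n ≤ |m2| * n := mul_le_mul_of_nonneg_right (le_abs_self _) hnpos.le
      linarith
    have h6 : Real.sqrt (2 * |m2| * n) = Q * Real.sqrt n := by
      rw [Real.sqrt_mul (by positivity), hQ]
    have h7 := log_le_two_sqrt (2 * T) (by positivity)
    rw [h6] at h5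
    linarith
  have hfinal : Real.exp (n * Real.log β) * (2 * T) ≤ k * (2 * T) := by
    refine le_trans ?_ hch
    calc Real.exp (n * Real.log β) * (2 * T)
        = Real.exp (n * Real.log β + Real.log (2 * T)) := by
          rw [Real.exp_add, Real.exp_log (by positivity)]
      _ ≤ _ := by
          rw [Real.exp_le_exp]
          linarith
  have := le_of_mul_le_mul_right hfinal (by positivity)
  rw [Real.exp_nat_mul, Real.exp_log hβ] at this
  exact this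

end Pool.Agent.H6.Chi
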