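import Mathlib
import Pool.Agent.H6.Chi.Key

set_option autoImplicit false

namespace Pool.Agent.H6.Chi

open Finset

/-- the rational distribution with numerators `c`. -/
noncomputable def fr (c : Fin 7 → ℕ) : Fin 7 → ℝ := fun a => (c a : ℝ) / 8000

lemma fr_nonneg (c : Fin 7 → ℕ) (a : Fin 7) : 0 ≤ fr c a := by unfold fr; positivity

lemma fr_sum (c : Fin 7 → ℕ) (h : ∑ a, c a = 8000) : ∑ a, fr c a = 1 := by
  unfold fr
  rw [← sum_div, ← Nat.cast_sum, h]; norm_num

lemma fr_mean (c : Fin 7 → ℕ) (M : ℕ) (h : ∑ a : Fin 7, c a * pot a < M) :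
    mean (fr c) < (M : ℝ) / 8000 := by
  unfold mean fr
  have : ∑ a : Fin 7, (c a : ℝ) / 8000 * (pot a : ℝ) = ((∑ a : Fin 7, c a * pot a : ℕ) : ℝ) / 8000 := by
    push_cast
    rw [sum_div]
    exact sum_congr rfl (fun a _ => by ring)
  rw [this]
  have : ((∑ a : Fin 7, c a * pot a : ℕ) : ℝ) < M := by exact_mod_cast h
  linarith

lemma fr_ent (c : Fin 7 → ℕ) (h : ∑ a, c a = 8000) :
    8000 * ent (fr c) = 8000 * Real.log 8000 - Real.log (((∏ a, (c a) ^ (c a) : ℕ) : ℝ)) := by
  have h1 : ∀ a : Fin 7, 8000 * (fr c a * (-Real.log (fr c a)))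
      = (c a : ℝ) * Real.log 8000 - (c a : ℝ) * Real.log (c a) := by
    intro a
    unfold fr
    rcases Nat.eq_zero_or_pos (c a) with h0 | h0
    · rw [h0]; simp
    · have : (0 : ℝ) < c a := by exact_mod_cast h0
      rw [Real.log_div this.ne' (by norm_num)]
      ring
  unfold ent
  rw [mul_sum, sum_congr rfl (fun a _ => h1 a), sum_sub_distrib, ← sum_mul, ← Nat.cast_sum, h]
  congr 1
  rw [Nat.cast_prod, Real.log_prod]
  · apply sum_congr rfl
    intro a _
    rw [Nat.cast_pow, Real.log_pow]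
  · intro a _
    have : 0 < (c a) ^ (c a) := Nat.pow_self_pos
    positivity

/-- numerator of `Eg (a / 1000)`. -/
def En (a : ℕ) : ℕ :=
  1000 ^ 11 + a * 1000 ^ 10 + a ^ 3 * 1000 ^ 8 + a ^ 4 * 1000 ^ 7 + a ^ 8 * 1000 ^ 3
    + a ^ 9 * 1000 ^ 2 + a ^ 11

lemma Eg_eq (a : ℕ) : Eg ((a : ℝ) / 1000) = (En a : ℝ) / 1000 ^ 11 := by
  unfold Eg En
  push_cast
  field_simp
  ring

/-- logarithms of a comparison of integers, with general parameters. -/
lemma log_aux (B P E M a D k : ℕ) (hB : 0 < B) (hP : 0 < P) (hE : 0 < E) (ha : 0 < a)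
    (hD : 0 < D) (hN : (B ^ k * P * E ^ k) ^ 2 * 1000 ^ M < (D ^ k * 1000 ^ (12 * k)) ^ 2 * a ^ M) :
    2 * (k * Real.log B + Real.log P + k * Real.log E) + M * Real.log 1000
      < 2 * (k * Real.log D + 12 * k * Real.log 1000) + M * Real.log a := by
  have h2 : Real.log (((B ^ k * P * E ^ k) ^ 2 * 1000 ^ M : ℕ) : ℝ)
      < Real.log (((D ^ k * 1000 ^ (12 * k)) ^ 2 * a ^ M : ℕ) : ℝ) := by
    apply Real.log_lt_log
    · exact_mod_cast (by positivity)
    · exact_mod_cast hN
  have hBr : (0 : ℝ) < B := by exact_mod_cast hB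
  have hPr : (0 : ℝ) < P := by exact_mod_cast hP
  have hEr : (0 : ℝ) < E := by exact_mod_cast hE
  have hDr : (0 : ℝ) < D := by exact_mod_cast hD
  have har : (0 : ℝ) < a := by exact_mod_cast ha
  push_cast at h2
  rw [Real.log_mul (by positivity) (by positivity), Real.log_pow, Real.log_mul (by positivity)
      (by positivity), Real.log_mul (by positivity) (by positivity), Real.log_pow, Real.log_pow,
      Real.log_pow, Real.log_mul (by positivity) (by positivity), Real.log_pow,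
      Real.log_mul (by positivity)
      (by positivity), Real.log_pow, Real.log_pow, Real.log_pow] at h2
  push_cast at h2
  linarith

lemma ineq_of_nat (c : Fin 7 → ℕ) (h : ∑ a, c a = 8000) (M a : ℕ) (ha : 0 < a)
    (hN : (1309 ^ 8000 * (∏ a, (c a) ^ (c a)) * (En a) ^ 8000) ^ 2 * 1000 ^ M
      < (8000 ^ 8000 * 1000 ^ (12 * 8000)) ^ 2 * a ^ M) :
    Real.log (1309 / 1000) < ent (fr c) + (M : ℝ) / 8000 / 2 * Real.log ((a : ℝ) / 1000)
      - Real.log (Eg ((a : ℝ) / 1000)) := by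
  have hP : 0 < ∏ a, (c a) ^ (c a) := prod_pos (fun a _ => Nat.pow_self_pos)
  have hE : 0 < En a := by unfold En; positivity
  have h1 := fr_ent c h
  have h2 := log_aux 1309 (∏ a, (c a) ^ (c a)) (En a) M a 8000 8000 (by norm_num) hP hE ha
    (by norm_num) hN
  clear hN
  generalize ∏ a, (c a) ^ (c a) = P at *
  have hEr : (0 : ℝ) < En a := by exact_mod_cast hE
  have har : (0 : ℝ) < a := by exact_mod_cast ha
  push_cast at h2
  rw [Eg_eq, Real.log_div hEr.ne' (by positivity), Real.log_div har.ne' (by norm_num),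
    Real.log_div (by norm_num) (by norm_num), Real.log_pow]
  push_cast
  linarith

end Pool.Agent.H6.Chi
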