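import Mathlib
import Pool.Agent.H6.Chi.Num

set_option autoImplicit false
set_option exponentiation.threshold 100000

namespace Pool.Agent.H6.Chi

open Finset

def c0 : Fin 7 → ℕ := ![0, 14, 802, 4507, 2534, 142, 1]
def c1 : Fin 7 → ℕ := ![0, 33, 974, 4190, 2574, 226, 3]
def c2 : Fin 7 → ℕ := ![2, 96, 1231, 3689, 2555, 412, 15]
def c3 : Fin 7 → ℕ := ![5, 155, 1349, 3420, 2506, 532, 33]

lemma n0a : (1309 ^ 8000 * (∏ a, (c0 a) ^ (c0 a)) * (En 348) ^ 8000) ^ 2 * 1000 ^ 5948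
      < (8000 ^ 8000 * 1000 ^ (12 * 8000)) ^ 2 * 348 ^ 5948 := by decide +kernel

lemma n0b : (1309 ^ 8000 * (∏ a, (c1 a) ^ (c1 a)) * (En 348) ^ 8000) ^ 2 * 1000 ^ 7228
      < (8000 ^ 8000 * 1000 ^ (12 * 8000)) ^ 2 * 348 ^ 7228 := by decide +kernel

lemma n1a : (1309 ^ 8000 * (∏ a, (c1 a) ^ (c1 a)) * (En 432) ^ 8000) ^ 2 * 1000 ^ 7228
      < (8000 ^ 8000 * 1000 ^ (12 * 8000)) ^ 2 * 432 ^ 7228 := by decide +kernel

lemma n1b : (1309 ^ 8000 * (∏ a, (c2 a) ^ (c2 a)) * (En 432) ^ 8000) ^ 2 * 1000 ^ 9948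
      < (8000 ^ 8000 * 1000 ^ (12 * 8000)) ^ 2 * 432 ^ 9948 := by decide +kernel

lemma n2a : (1309 ^ 8000 * (∏ a, (c2 a) ^ (c2 a)) * (En 510) ^ 8000) ^ 2 * 1000 ^ 9948
      < (8000 ^ 8000 * 1000 ^ (12 * 8000)) ^ 2 * 510 ^ 9948 := by decide +kernel

lemma n2b : (1309 ^ 8000 * (∏ a, (c3 a) ^ (c3 a)) * (En 510) ^ 8000) ^ 2 * 1000 ^ 11896
      < (8000 ^ 8000 * 1000 ^ (12 * 8000)) ^ 2 * 510 ^ 11896 := by decide +kernel

lemma s0 : ∑ a, c0 a = 8000 := by decide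
lemma s1 : ∑ a, c1 a = 8000 := by decide
lemma s2 : ∑ a, c2 a = 8000 := by decide
lemma s3 : ∑ a, c3 a = 8000 := by decide

lemma me0 : ∑ a : Fin 7, c0 a * pot a < 5948 := by decide
lemma me1 : ∑ a : Fin 7, c1 a * pot a < 7228 := by decide
lemma me2 : ∑ a : Fin 7, c2 a * pot a < 9948 := by decide
lemma me3 : ∑ a : Fin 7, c3 a * pot a < 11896 := by decide

/-- A colouring of `ℝ^n` with no two points at distance 1 of the same colour. -/
def IsCol (n k : ℕ) : Prop :=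
  ∃ f : EuclideanSpace ℝ (Fin n) → Fin k, ∀ x y : EuclideanSpace ℝ (Fin n), dist x y = 1 → f x ≠ f y

/-- The bound for all large dimensions. -/
theorem all_dims : ∃ N : ℕ, ∀ n ≥ N, ∀ k : ℕ, IsCol n k → (1309 / 1000 : ℝ) ^ n ≤ k := by
  have i0a := ineq_of_nat c0 s0 5948 348 (by norm_num) n0a
  have i0b := ineq_of_nat c1 s1 7228 348 (by norm_num) n0b
  have i1a := ineq_of_nat c1 s1 7228 432 (by norm_num) n1a
  have i1b := ineq_of_nat c2 s2 9948 432 (by norm_num) n1b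
  have i2a := ineq_of_nat c2 s2 9948 510 (by norm_num) n2a
  have i2b := ineq_of_nat c3 s3 11896 510 (by norm_num) n2b
  have k0 := fr_mean c0 5948 me0
  have k1 := fr_mean c1 7228 me1
  have k2 := fr_mean c2 9948 me2
  have k3 := fr_mean c3 11896 me3
  push_cast at i0a i0b i1a i1b i2a i2b k0 k1 k2 k3
  obtain ⟨N0, h0⟩ := key (fr c0) (fr c1) (fr_nonneg c0) (fr_nonneg c1) (fr_sum c0 s0) (fr_sum c1 s1)
    (5948 / 8000) (7228 / 8000) k0 k1 (by norm_num) (348 / 1000) (by norm_num) (by norm_num)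
    (1309 / 1000) (by norm_num) i0a i0b
  obtain ⟨N1, h1⟩ := key (fr c1) (fr c2) (fr_nonneg c1) (fr_nonneg c2) (fr_sum c1 s1) (fr_sum c2 s2)
    (7228 / 8000) (9948 / 8000) k1 k2 (by norm_num) (432 / 1000) (by norm_num) (by norm_num)
    (1309 / 1000) (by norm_num) i1a i1b
  obtain ⟨N2, h2⟩ := key (fr c2) (fr c3) (fr_nonneg c2) (fr_nonneg c3) (fr_sum c2 s2) (fr_sum c3 s3)
    (9948 / 8000) (11896 / 8000) k2 k3 (by norm_num) (510 / 1000) (by norm_num) (by norm_num)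
    (1309 / 1000) (by norm_num) i2a i2b
  refine ⟨max 3 (max N0 (max N1 N2)), ?_⟩
  intro n hn k hk
  obtain ⟨f, hf⟩ := hk
  have hn3 : 3 ≤ n := le_trans (le_max_left _ _) hn
  have hnA : max N0 (max N1 N2) ≤ n := le_trans (le_max_right _ _) hn
  have hnN0 : N0 ≤ n := le_trans (le_max_left _ _) hnA
  have hnB : max N1 N2 ≤ n := le_trans (le_max_right _ _) hnA
  have hnN1 : N1 ≤ n := le_trans (le_max_left _ _) hnB
  have hnN2 : N2 ≤ n := le_trans (le_max_right _ _) hnB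
  have hn3' : (3 : ℝ) ≤ n := by exact_mod_cast hn3
  obtain ⟨m, hm1, hm2⟩ := exists_nat_pow_near (x := 2 * ((5948 / 8000 : ℝ) * n)) (y := 2)
    (by linarith) (by norm_num)
  have hm0 : m ≠ 0 := by
    rintro rfl
    norm_num at hm2
    linarith
  obtain ⟨b, rfl⟩ : ∃ b, m = b + 1 := ⟨m - 1, by omega⟩
  have hlow : (5948 / 8000 : ℝ) * n ≤ 2 ^ (b + 1) := by
    rw [pow_succ] at hm2
    linarith
  have hup : (2 : ℝ) ^ (b + 1) ≤ 11896 / 8000 * n := by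
    linarith
  rcases le_total ((2 : ℝ) ^ (b + 1)) (7228 / 8000 * n) with hA | hA
  · exact h0 n hnN0 b hlow hA k f hf
  · rcases le_total ((2 : ℝ) ^ (b + 1)) (9948 / 8000 * n) with hB | hB
    · exact h1 n hnN1 b hA hB k f hf
    · exact h2 n hnN2 b hB hup k f hf

/-- The tilted distribution. -/
noncomputable def gi (y : ℝ) : Fin 7 → ℝ := fun a => y ^ pot a / ∑ b : Fin 7, y ^ pot b

lemma gi_nonneg (y : ℝ) (hy : 0 < y) (a : Fin 7) : 0 ≤ gi y a := by unfold gi; positivity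

lemma th_pos (y : ℝ) (hy : 0 < y) : 0 < ∑ b : Fin 7, y ^ pot b := by positivity

lemma gi_sum (y : ℝ) (hy : 0 < y) : ∑ a, gi y a = 1 := by
  unfold gi
  rw [← sum_div, div_self (th_pos y hy).ne']

lemma gi_ent (y : ℝ) (hy : 0 < y) :
    ent (gi y) = Real.log (∑ b : Fin 7, y ^ pot b) - mean (gi y) * Real.log y := by
  unfold ent mean
  have h1 : ∀ a : Fin 7, gi y a * (-Real.log (gi y a))
      = gi y a * Real.log (∑ b : Fin 7, y ^ pot b) - gi y a * (pot a : ℝ) * Real.log y := by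
    intro a
    have : Real.log (gi y a) = (pot a : ℝ) * Real.log y - Real.log (∑ b : Fin 7, y ^ pot b) := by
      unfold gi
      rw [Real.log_div (by positivity) (th_pos y hy).ne', Real.log_pow]
    rw [this]; ring
  rw [sum_congr rfl (fun a _ => h1 a), sum_sub_distrib, ← sum_mul, ← sum_mul, gi_sum y hy, one_mul]

lemma ratio : (1316 / 1000 : ℝ) * Eg ((654 / 1000) ^ 2) < ∑ b : Fin 7, (654 / 1000 : ℝ) ^ pot b := by
  simp only [Fin.sum_univ_succ, Fin.sum_univ_zero]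
  unfold Eg
  simp [pot]
  norm_num

/-- The better bound for infinitely many dimensions. -/
theorem inf_dims : ∀ N : ℕ, ∃ n ≥ N, ∀ k : ℕ, IsCol n k → (1316 / 1000 : ℝ) ^ n ≤ k := by
  have hy : (0 : ℝ) < 654 / 1000 := by norm_num
  have hE : 0 < Eg ((654 / 1000) ^ 2) := by unfold Eg; positivity
  have hgap : 0 < Real.log (∑ b : Fin 7, (654 / 1000 : ℝ) ^ pot b) - Real.log (Eg ((654 / 1000) ^ 2))
      - Real.log (1316 / 1000) := by
    have := Real.log_lt_log (by positivity) ratio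
    rw [Real.log_mul (by norm_num) hE.ne'] at this
    linarith
  obtain ⟨gap, hgapdef⟩ : ∃ g : ℝ, g = Real.log (∑ b : Fin 7, (654 / 1000 : ℝ) ^ pot b)
      - Real.log (Eg ((654 / 1000) ^ 2)) - Real.log (1316 / 1000) := ⟨_, rfl⟩
  rw [← hgapdef] at hgap
  have hlog : -1 ≤ Real.log (654 / 1000) := by
    have := Real.one_sub_inv_le_log_of_pos hy
    have h2 : (1 : ℝ) - (654 / 1000)⁻¹ ≥ -1 := by norm_num
    linarith
  have hlog0 : Real.log (654 / 1000) ≤ 0 := Real.log_nonpos (by norm_num) (by norm_num)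
  have hent := gi_ent (654 / 1000) hy
  have hmean0 : 0 ≤ mean (gi (654 / 1000)) := by
    unfold mean
    exact sum_nonneg (fun a _ => mul_nonneg (gi_nonneg _ hy a) (Nat.cast_nonneg _))
  obtain ⟨mu, hmu⟩ : ∃ mu : ℝ, mu = mean (gi (654 / 1000)) := ⟨_, rfl⟩
  rw [← hmu] at hent hmean0
  have hlt : Real.log ((654 / 1000 : ℝ) ^ 2) = 2 * Real.log (654 / 1000) := by
    rw [Real.log_pow]; norm_num
  obtain ⟨N1, h1⟩ := key (gi (654 / 1000)) (gi (654 / 1000)) (gi_nonneg _ hy) (gi_nonneg _ hy)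
    (gi_sum _ hy) (gi_sum _ hy) (mu + gap / 4) (mu + gap / 2)
    (by rw [← hmu]; linarith) (by rw [← hmu]; linarith) (by linarith)
    ((654 / 1000) ^ 2) (by norm_num) (by norm_num) (1316 / 1000) (by norm_num)
    (by rw [hlt, hent]; nlinarith) (by rw [hlt, hent]; nlinarith)
  intro N
  obtain ⟨m1, hm1⟩ : ∃ m : ℝ, m = mu + gap / 4 := ⟨_, rfl⟩
  obtain ⟨m2, hm2⟩ : ∃ m : ℝ, m = mu + gap / 2 := ⟨_, rfl⟩
  rw [← hm1, ← hm2] at h1
  have hm1p : 0 < m1 := by rw [hm1]; linarith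
  have hm2p : 0 < m2 := by rw [hm2]; linarith
  have h12 : m1 < m2 := by rw [hm1, hm2]; linarith
  obtain ⟨b, hb⟩ := pow_unbounded_of_one_lt
    (max (m1 * m2 / (m2 - m1)) (m2 * (max N N1 : ℕ))) (one_lt_two : (1 : ℝ) < 2)
  have hb1 : m1 * m2 / (m2 - m1) < 2 ^ (b + 1) := by
    calc m1 * m2 / (m2 - m1) ≤ _ := le_max_left _ _
      _ < 2 ^ b := hb
      _ ≤ 2 ^ (b + 1) := pow_le_pow_right₀ (by norm_num) (by omega)
  have hb2 : m2 * (max N N1 : ℕ) < 2 ^ (b + 1) := by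
    calc m2 * (max N N1 : ℕ) ≤ _ := le_max_right _ _
      _ < 2 ^ b := hb
      _ ≤ 2 ^ (b + 1) := pow_le_pow_right₀ (by norm_num) (by omega)
  rw [div_lt_iff₀ (by linarith)] at hb1
  obtain ⟨n, hn1, hn2⟩ : ∃ n : ℕ, (2 : ℝ) ^ (b + 1) / m2 ≤ n ∧ (n : ℝ) < 2 ^ (b + 1) / m2 + 1 :=
    ⟨⌈(2 : ℝ) ^ (b + 1) / m2⌉₊, Nat.le_ceil _, Nat.ceil_lt_add_one (by positivity)⟩
  have hn3 : (2 : ℝ) ^ (b + 1) ≤ m2 * n := by
    rw [div_le_iff₀ hm2p] at hn1; linarith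
  have hn4 : m1 * n ≤ 2 ^ (b + 1) := by
    have h5 : m1 * (n : ℝ) ≤ m1 * (2 ^ (b + 1) / m2 + 1) := mul_le_mul_of_nonneg_left hn2.le hm1p.le
    have h6 : m1 * (2 ^ (b + 1) / m2 + 1) ≤ 2 ^ (b + 1) := by
      rw [div_add_one hm2p.ne', ← mul_div_assoc, div_le_iff₀ hm2p]
      nlinarith
    linarith
  have hn5 : max N N1 < n := by
    have : ((max N N1 : ℕ) : ℝ) < n := by
      have h7 : m2 * (max N N1 : ℕ) < m2 * n := lt_of_lt_of_le hb2 hn3
      exact lt_of_mul_lt_mul_left h7 hm2p.le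
    exact_mod_cast this
  refine ⟨n, le_trans (le_max_left _ _) hn5.le, ?_⟩
  intro k hk
  obtain ⟨f, hf⟩ := hk
  exact h1 n (le_trans (le_max_right _ _) hn5.le) b hn4 hn3 k f hf

end Pool.Agent.H6.Chi
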