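import Mathlib

set_option autoImplicit false

namespace Pool.Agent.H6.Chi

open Finset

/-- Euclidean space has a finite colouring without monochromatic unit distance. -/
theorem exists_colouring (n : ℕ) : ∃ (k : ℕ) (f : EuclideanSpace ℝ (Fin n) → Fin k),
    ∀ x y : EuclideanSpace ℝ (Fin n), dist x y = 1 → f x ≠ f y := by
  classical
  let F : EuclideanSpace ℝ (Fin n) → (Fin n → ZMod (n + 2)) :=
    fun x i => ((⌊((n : ℝ) + 1) * x i⌋ : ℤ) : ZMod (n + 2))
  have key : ∀ x y : EuclideanSpace ℝ (Fin n), dist x y = 1 → F x ≠ F y := by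
    intro x y hd hF
    have hpos : (0 : ℝ) < (n : ℝ) + 1 := by positivity
    have hsum : ∑ i, (x i - y i) ^ 2 = 1 := by
      rw [EuclideanSpace.dist_eq] at hd
      have h1 : ∑ i, dist (x i) (y i) ^ 2 = 1 := by
        have h0 : 0 ≤ ∑ i, dist (x i) (y i) ^ 2 := sum_nonneg (fun i _ => sq_nonneg _)
        rw [← Real.sq_sqrt h0, hd]; norm_num
      rw [← h1]
      apply sum_congr rfl
      intro i _
      rw [Real.dist_eq, sq_abs]
    have hle : ∀ i, |x i - y i| ≤ 1 := by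
      intro i
      have h1 : (x i - y i) ^ 2 ≤ 1 := by
        rw [← hsum]
        exact single_le_sum (f := fun i => (x i - y i) ^ 2) (fun i _ => sq_nonneg _) (mem_univ i)
      exact abs_le_of_sq_le_sq (a := x i - y i) (b := 1) (by simpa using h1) (by norm_num)
    have hfl : ∀ i, ⌊((n : ℝ) + 1) * x i⌋ = ⌊((n : ℝ) + 1) * y i⌋ := by
      intro i
      have hFi : F x i = F y i := congrFun hF i
      have hdvd : ((n + 2 : ℕ) : ℤ) ∣ ⌊((n : ℝ) + 1) * x i⌋ - ⌊((n : ℝ) + 1) * y i⌋ := by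
        have h2 := (ZMod.intCast_eq_intCast_iff_dvd_sub _ _ (n + 2)).1 hFi
        rw [← dvd_neg]
        simpa using h2
      have ha := abs_le.1 (hle i)
      have h3 := Int.floor_le (((n : ℝ) + 1) * x i)
      have h4 := Int.lt_floor_add_one (((n : ℝ) + 1) * x i)
      have h5 := Int.floor_le (((n : ℝ) + 1) * y i)
      have h6 := Int.lt_floor_add_one (((n : ℝ) + 1) * y i)
      have h7 : ((n : ℝ) + 1) * x i - ((n : ℝ) + 1) * y i ≤ n + 1 := by nlinarith [ha.2]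
      have h8 : -((n : ℝ) + 1) ≤ ((n : ℝ) + 1) * x i - ((n : ℝ) + 1) * y i := by nlinarith [ha.1]
      have h9 : (⌊((n : ℝ) + 1) * x i⌋ : ℝ) - ⌊((n : ℝ) + 1) * y i⌋ < n + 2 := by linarith
      have h10 : -((n : ℝ) + 2) < (⌊((n : ℝ) + 1) * x i⌋ : ℝ) - ⌊((n : ℝ) + 1) * y i⌋ := by linarith
      have h9' : ⌊((n : ℝ) + 1) * x i⌋ - ⌊((n : ℝ) + 1) * y i⌋ < (n : ℤ) + 2 := by exact_mod_cast h9
      have h10' : -((n : ℤ) + 2) < ⌊((n : ℝ) + 1) * x i⌋ - ⌊((n : ℝ) + 1) * y i⌋ := by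
        exact_mod_cast h10
      have h11 : ⌊((n : ℝ) + 1) * x i⌋ - ⌊((n : ℝ) + 1) * y i⌋ = 0 := by
        apply Int.eq_zero_of_abs_lt_dvd hdvd
        rw [abs_lt]
        push_cast
        exact ⟨h10', h9'⟩
      linarith
    have hlt : ∀ i, (x i - y i) ^ 2 ≤ 1 / ((n : ℝ) + 1) ^ 2 := by
      intro i
      have h3 := Int.floor_le (((n : ℝ) + 1) * x i)
      have h4 := Int.lt_floor_add_one (((n : ℝ) + 1) * x i)
      have h5 := Int.floor_le (((n : ℝ) + 1) * y i)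
      have h6 := Int.lt_floor_add_one (((n : ℝ) + 1) * y i)
      rw [hfl i] at h3 h4
      have h7 : (((n : ℝ) + 1) * (x i - y i)) ^ 2 ≤ 1 := by
        have h8 : ((n : ℝ) + 1) * (x i - y i) ≤ 1 := by linarith
        have h9 : -1 ≤ ((n : ℝ) + 1) * (x i - y i) := by linarith
        nlinarith
      rw [le_div_iff₀ (by positivity)]
      calc (x i - y i) ^ 2 * ((n : ℝ) + 1) ^ 2 = (((n : ℝ) + 1) * (x i - y i)) ^ 2 := by ring
        _ ≤ 1 := h7
    have hfin : (1 : ℝ) ≤ n * (1 / ((n : ℝ) + 1) ^ 2) := by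
      calc (1 : ℝ) = ∑ i, (x i - y i) ^ 2 := hsum.symm
        _ ≤ ∑ _i : Fin n, 1 / ((n : ℝ) + 1) ^ 2 := sum_le_sum (fun i _ => hlt i)
        _ = n * (1 / ((n : ℝ) + 1) ^ 2) := by simp
    rw [mul_one_div, le_div_iff₀ (by positivity)] at hfin
    nlinarith [Nat.cast_nonneg (α := ℝ) n]
  refine ⟨Fintype.card (Fin n → ZMod (n + 2)), fun x => Fintype.equivFin _ (F x), ?_⟩
  intro x y hd heq
  exact key x y hd ((Fintype.equivFin _).injective heq)

end Pool.Agent.H6.Chi
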